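import Pool.Agent.helper73.BS.Spec

/-!
# Project bs, row CL: all elements are generically solvable
-/

set_option autoImplicit false

namespace Pool.Agent.BS

open Matrix Module Pool.Agent.UG

section

variable {n : ℕ}

theorem CL_exp2 (X : MQ n) (hX : IsNilpotent X) :
    ∃ Q : Polynomial ℚ, IsNilpotent.exp X = 1 + X + Polynomial.aeval X Q * X * X := by
  obtain ⟨m, hm⟩ := hX
  have hm2 : X ^ (m + 1 + 1) = 0 := by rw [pow_succ, pow_succ, hm, zero_mul, zero_mul]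
  refine ⟨∑ i ∈ Finset.range m, Polynomial.C (((i + 1 + 1).factorial : ℚ)⁻¹) * Polynomial.X ^ i, ?_⟩
  rw [IsNilpotent.exp_eq_sum hm2, Finset.sum_range_succ', Finset.sum_range_succ', map_sum,
    Finset.sum_mul, Finset.sum_mul]
  have h1 : ∀ i ∈ Finset.range m, (((i + 1 + 1).factorial : ℚ)⁻¹) • X ^ (i + 1 + 1) =
      Polynomial.aeval X (Polynomial.C (((i + 1 + 1).factorial : ℚ)⁻¹) * Polynomial.X ^ i) *
        X * X := by
    intro i _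
    rw [map_mul, Polynomial.aeval_C, map_pow, Polynomial.aeval_X, ← Algebra.smul_def,
      smul_mul_assoc, smul_mul_assoc, ← pow_succ, ← pow_succ]
  rw [Finset.sum_congr rfl h1]
  simp only [zero_add, Nat.factorial_one, Nat.factorial_zero, Nat.cast_one, inv_one, one_smul,
    pow_one, pow_zero]
  abel

theorem CL_aeval (A : Submodule ℚ (VQ n)) (X : MQ n) (h : ∀ w ∈ A, X *ᵥ w ∈ A)
    (Q : Polynomial ℚ) : ∀ w ∈ A, (Polynomial.aeval X Q) *ᵥ w ∈ A := by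
  have hp : ∀ k : ℕ, ∀ w ∈ A, (X ^ k) *ᵥ w ∈ A := by
    intro k
    induction k with
    | zero => intro w hw; rw [pow_zero, Matrix.one_mulVec]; exact hw
    | succ k ih =>
      intro w hw
      rw [pow_succ, ← mulVec_mulVec]
      exact ih _ (h w hw)
  induction Q using Polynomial.induction_on' with
  | add p q hp hq =>
    intro w hw
    rw [map_add, Matrix.add_mulVec]
    exact A.add_mem (hp w hw) (hq w hw)
  | monomial k a =>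
    intro w hw
    rw [Polynomial.aeval_monomial, ← Algebra.smul_def, Matrix.smul_mulVec]
    exact A.smul_mem a (hp k w hw)

theorem CL_line (f : MvPolynomial (Fin n) ℚ) (u w : VQ n) (h : MvPolynomial.eval u f ≠ 0) :
    ∃ t : ℚ, t ≠ 0 ∧ MvPolynomial.eval (u + t • w) f ≠ 0 := by
  have key : ∀ f : MvPolynomial (Fin n) ℚ, ∃ p : Polynomial ℚ, ∀ t : ℚ,
      p.eval t = MvPolynomial.eval (u + t • w) f := by
    intro f
    induction f using MvPolynomial.induction_on with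
    | C c =>
      exact ⟨Polynomial.C c, fun t => by rw [Polynomial.eval_C, MvPolynomial.eval_C]⟩
    | add p q hp hq =>
      obtain ⟨p', hp'⟩ := hp
      obtain ⟨q', hq'⟩ := hq
      exact ⟨p' + q', fun t => by rw [Polynomial.eval_add, hp', hq', map_add]⟩
    | mul_X p i hp =>
      obtain ⟨p', hp'⟩ := hp
      refine ⟨p' * (Polynomial.C (u i) + Polynomial.C (w i) * Polynomial.X), fun t => ?_⟩
      rw [Polynomial.eval_mul, hp', map_mul, MvPolynomial.eval_X, Polynomial.eval_add,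
        Polynomial.eval_mul, Polynomial.eval_C, Polynomial.eval_C, Polynomial.eval_X]
      congr 1
      show u i + w i * t = u i + t * w i
      ring
  obtain ⟨p, hp⟩ := key f
  have hp0 : Polynomial.X * p ≠ 0 := by
    apply mul_ne_zero Polynomial.X_ne_zero
    intro h0
    have h1 := hp 0
    rw [h0, Polynomial.eval_zero, zero_smul, add_zero] at h1
    exact h h1.symm
  by_contra hc
  push Not at hc
  apply hp0
  apply Polynomial.funext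
  intro t
  rw [Polynomial.eval_mul, Polynomial.eval_X, Polynomial.eval_zero]
  by_cases ht : t = 0
  · rw [ht, zero_mul]
  · rw [hp, hc t ht, mul_zero]

theorem CL_surj (A B : Submodule ℚ (VQ n)) (φ : VQ n →ₗ[ℚ] VQ n) (hA : ∀ w ∈ A, φ w ∈ A)
    (hB : ∀ w ∈ B, φ w ∈ B) (hinj : ∀ w ∈ A, φ w ∈ B → w ∈ B) :
    ∀ w ∈ A, ∃ w' ∈ A, w - φ w' ∈ B := by
  intro w hw
  set ψ : A →ₗ[ℚ] A := φ.restrict hA with hψ
  set B' : Submodule ℚ A := B.comap A.subtype with hB'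
  have hle : B' ≤ B'.comap ψ := by
    intro x hx
    exact hB x.1 hx
  set q : (A ⧸ B') →ₗ[ℚ] (A ⧸ B') := B'.mapQ B' ψ hle with hq
  have hqi : Function.Injective q := by
    rw [← LinearMap.ker_eq_bot, Submodule.eq_bot_iff]
    intro x hx
    obtain ⟨x, rfl⟩ := Submodule.Quotient.mk_surjective B' x
    rw [LinearMap.mem_ker, hq, Submodule.mapQ_apply, Submodule.Quotient.mk_eq_zero] at hx
    rw [Submodule.Quotient.mk_eq_zero]
    exact hinj x.1 x.2 hx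
  have hqs : Function.Surjective q := LinearMap.injective_iff_surjective.1 hqi
  obtain ⟨x, hx⟩ := hqs (Submodule.Quotient.mk ⟨w, hw⟩)
  obtain ⟨x, rfl⟩ := Submodule.Quotient.mk_surjective B' x
  rw [hq, Submodule.mapQ_apply] at hx
  have hx2 := (Submodule.Quotient.eq B').1 hx.symm
  exact ⟨x.1, x.2, hx2⟩

/-- the images of `u` under `𝔢` modulo `A`, in `B` -/
def CL_T (𝔢 : Submodule ℚ (MQ n)) (A B : Submodule ℚ (VQ n)) (u : VQ n) :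
    Submodule ℚ (VQ n) where
  carrier := {w | w ∈ B ∧ ∃ X ∈ 𝔢, X *ᵥ u - w ∈ A}
  add_mem' := by
    rintro w w' ⟨h1, X, hX, hXw⟩ ⟨h2, Y, hY, hYw⟩
    refine ⟨B.add_mem h1 h2, X + Y, 𝔢.add_mem hX hY, ?_⟩
    have e : (X + Y) *ᵥ u - (w + w') = (X *ᵥ u - w) + (Y *ᵥ u - w') := by
      rw [Matrix.add_mulVec]; abel
    rw [e]
    exact A.add_mem hXw hYw
  zero_mem' := ⟨B.zero_mem, 0, 𝔢.zero_mem, by rw [Matrix.zero_mulVec, sub_zero]; exact A.zero_mem⟩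
  smul_mem' := by
    rintro c w ⟨h1, X, hX, hXw⟩
    refine ⟨B.smul_mem c h1, c • X, 𝔢.smul_mem c hX, ?_⟩
    have e : (c • X) *ᵥ u - c • w = c • (X *ᵥ u - w) := by
      rw [Matrix.smul_mulVec, smul_sub]
    rw [e]
    exact A.smul_mem c hXw

variable {k : ℕ} {W : ℕ → Submodule ℚ (VQ n)}

theorem CL_pres (hm : Monotone W) (h0 : W 0 = ⊥) {X : MQ n}
    (hX : ∀ i, ∀ w ∈ W (i + 1), X *ᵥ w ∈ W i) (i : ℕ) : ∀ w ∈ W i, X *ᵥ w ∈ W i := by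
  intro w hw
  cases i with
  | zero =>
    rw [h0, Submodule.mem_bot] at hw
    rw [hw, Matrix.mulVec_zero]
    exact (W 0).zero_mem
  | succ i => exact hm (Nat.le_succ i) (hX i w hw)

theorem CL_nil (h0 : W 0 = ⊥) (hk : W k = ⊤) {X : MQ n}
    (hX : ∀ i, ∀ w ∈ W (i + 1), X *ᵥ w ∈ W i) : IsNilpotent X :=
  fil_one_nil h0 hk ((mem_fil_one h0).2 hX)

theorem CL_e2 (hm : Monotone W) (h0 : W 0 = ⊥) (hk : W k = ⊤) {X : MQ n}
    (hX : ∀ i, ∀ w ∈ W (i + 1), X *ᵥ w ∈ W i) (i : ℕ) (u : VQ n) (hu : X *ᵥ u ∈ W (i + 1)) :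
    IsNilpotent.exp X *ᵥ u - u - X *ᵥ u ∈ W i := by
  obtain ⟨Q, hQ⟩ := CL_exp2 X (CL_nil h0 hk hX)
  have e : IsNilpotent.exp X *ᵥ u - u - X *ᵥ u = Polynomial.aeval X Q *ᵥ (X *ᵥ (X *ᵥ u)) := by
    rw [hQ, Matrix.add_mulVec, Matrix.add_mulVec, Matrix.one_mulVec, ← mulVec_mulVec,
      ← mulVec_mulVec]
    abel
  rw [e]
  exact CL_aeval (W i) X (CL_pres hm h0 hX i) Q _ (hX i _ hu)

theorem CL_e1 (hm : Monotone W) (h0 : W 0 = ⊥) (hk : W k = ⊤) {X : MQ n}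
    (hX : ∀ i, ∀ w ∈ W (i + 1), X *ᵥ w ∈ W i) (i : ℕ) (u : VQ n) (hu : u ∈ W (i + 1)) :
    IsNilpotent.exp X *ᵥ u - u ∈ W i := by
  have h1 := CL_e2 hm h0 hk hX i u (CL_pres hm h0 hX (i + 1) u hu)
  have h2 := (W i).add_mem h1 (hX i u hu)
  rwa [sub_add_cancel] at h2

theorem CL_e0 (hm : Monotone W) (h0 : W 0 = ⊥) (hk : W k = ⊤) {X : MQ n}
    (hX : ∀ i, ∀ w ∈ W (i + 1), X *ᵥ w ∈ W i) (i : ℕ) (u : VQ n) (hu : u ∈ W i) :
    IsNilpotent.exp X *ᵥ u ∈ W i := by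
  have h1 := CL_e1 hm h0 hk hX i u (hm (Nat.le_succ i) hu)
  have h2 := (W i).add_mem h1 hu
  rwa [sub_add_cancel] at h2

theorem CL_e3 (hLG : UG.LG_stmt) (hm : Monotone W) (h0 : W 0 = ⊥) (hk : W k = ⊤) {X : MQ n}
    (hX : ∀ i, ∀ w ∈ W (i + 1), X *ᵥ w ∈ W i) (i : ℕ) (u : VQ n)
    (hu : IsNilpotent.exp X *ᵥ u - u ∈ W (i + 1)) :
    X *ᵥ u - (IsNilpotent.exp X *ᵥ u - u) ∈ W i := by
  obtain ⟨P, ⟨R, hR⟩, -, hP⟩ := hLG n
  have hP1 := hP X (CL_nil h0 hk hX)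
  have hPR : P = Polynomial.X + Polynomial.X ^ 2 * R := by rw [← hR]; ring
  obtain ⟨N, hN⟩ : ∃ N : MQ n, N = IsNilpotent.exp X - 1 := ⟨_, rfl⟩
  have hNu : ∀ v : VQ n, N *ᵥ v = IsNilpotent.exp X *ᵥ v - v := by
    intro v
    rw [hN, Matrix.sub_mulVec, Matrix.one_mulVec]
  have e : X = N + Polynomial.aeval N R * N * N := by
    rw [← hN, hPR, map_add, map_mul, map_pow, Polynomial.aeval_X] at hP1
    have hc : Commute (Polynomial.aeval N R) N := by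
      have h1 : Polynomial.aeval N (Polynomial.X : Polynomial ℚ) = N := Polynomial.aeval_X N
      have h2 := (Commute.all R (Polynomial.X : Polynomial ℚ)).map (Polynomial.aeval N)
      rwa [h1] at h2
    rw [mul_assoc, (show Polynomial.aeval N R * (N * N) = N ^ 2 * Polynomial.aeval N R by
      rw [pow_two]; exact (hc.mul_right hc).eq)]
    exact hP1.symm
  have e2 : X *ᵥ u - (IsNilpotent.exp X *ᵥ u - u) =
      Polynomial.aeval N R *ᵥ (N *ᵥ (N *ᵥ u)) := by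
    rw [← hNu u]
    conv_lhs => rw [e]
    rw [Matrix.add_mulVec, ← mulVec_mulVec, ← mulVec_mulVec]
    abel
  rw [e2]
  apply CL_aeval (W i) N
  · intro v hv
    rw [hNu]
    exact (W i).sub_mem (CL_e0 hm h0 hk hX i v hv) hv
  · rw [← hNu] at hu
    have h1 := CL_e1 hm h0 hk hX i (N *ᵥ u) hu
    rw [← hNu] at h1
    exact h1

theorem CL_comm {s N : MQ n} (h : Commute s N) (hN : IsNilpotent N) :
    Commute s (IsNilpotent.exp N) := by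
  obtain ⟨m, hm⟩ := hN
  rw [IsNilpotent.exp_eq_sum hm]
  exact Commute.sum_right _ _ _ fun i _ => (h.pow_right i).smul_right _

/-- the facts on `𝔣` which are used -/
structure CL_F (P : Subgroup (SLZ n)) (𝔲 : Submodule ℚ (MQ n)) (W : ℕ → Submodule ℚ (VQ n))
    (𝔣 : Submodule ℚ (MQ n)) : Prop where
  down : ∀ X ∈ 𝔣, ∀ i, ∀ w ∈ W (i + 1), X *ᵥ w ∈ W i
  zar : ∀ X ∈ 𝔣, IsNilpotent.exp X ∈ ZQ (mz P)
  grp : ∀ X ∈ 𝔣, ∀ Y ∈ 𝔣, ∃ Z ∈ 𝔣, IsNilpotent.exp X * IsNilpotent.exp Y = IsNilpotent.exp Z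
  conj : ∀ X ∈ 𝔣, ∀ g ∈ ZQ (mz P), g * X * g⁻¹ ∈ 𝔣
  le : 𝔲 ≤ 𝔣

theorem CL_mkF (hFF : FF_stmt) {P : Subgroup (SLZ n)} {𝔲 : Submodule ℚ (MQ n)}
    (hFS : FS P 𝔲 k W) : CL_F P 𝔲 W (ff P 𝔲) := by
  obtain ⟨h1, h2, h3, -⟩ := hFF n P 𝔲 k W hFS
  refine ⟨fun X hX => (h1 X hX).1, fun X hX => ?_, fun X hX Y hY => ?_,
    fun X hX g hg => (h3 X hX g hg).1, le_sup_left⟩
  · have := (h1 X hX).2 1
    rwa [one_smul] at this
  · obtain ⟨Z, hZ, hZe, -⟩ := h2 X hX Y hY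
    exact ⟨Z, hZ, hZe⟩

variable {P : Subgroup (SLZ n)} {𝔲 𝔣 : Submodule ℚ (MQ n)}

theorem CL_step (hm : Monotone W) (h0 : W 0 = ⊥) (hk : W k = ⊤) (hF : CL_F P 𝔲 W 𝔣) (m : MQ n)
    (i : ℕ) (u : VQ n) (X Y : MQ n) (hX : X ∈ 𝔣) (hY : Y ∈ 𝔣)
    (h1 : IsNilpotent.exp X *ᵥ (m *ᵥ u) - u ∈ W (i + 1))
    (h2 : Y *ᵥ u + (IsNilpotent.exp X *ᵥ (m *ᵥ u) - u) ∈ W i) : SolvG 𝔣 m (W i) u := by
  obtain ⟨Z, hZ, hZe⟩ := hF.grp Y hY X hX
  refine ⟨Z, hZ, ?_⟩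
  obtain ⟨w, hw⟩ : ∃ w : VQ n, w = IsNilpotent.exp X *ᵥ (m *ᵥ u) - u := ⟨_, rfl⟩
  have e0 : IsNilpotent.exp X *ᵥ (m *ᵥ u) = u + w := by rw [hw]; abel
  rw [← hw] at h1 h2
  rw [← hZe, ← mulVec_mulVec, e0, Matrix.mulVec_add]
  have hYu : Y *ᵥ u ∈ W (i + 1) := by
    have := (W (i + 1)).sub_mem (hm (Nat.le_succ i) h2) h1
    rwa [add_sub_cancel_right] at this
  have a1 := CL_e2 hm h0 hk (hF.down Y hY) i u hYu
  have a2 := CL_e1 hm h0 hk (hF.down Y hY) i w h1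
  have e1 : IsNilpotent.exp Y *ᵥ u + IsNilpotent.exp Y *ᵥ w - u =
      (IsNilpotent.exp Y *ᵥ u - u - Y *ᵥ u) + (IsNilpotent.exp Y *ᵥ w - w) + (Y *ᵥ u + w) := by
    abel
  rw [e1]
  exact (W i).add_mem ((W i).add_mem a1 a2) h2

theorem CL_unit {m : MQ n} (h : m.det = 1) : IsUnit m.det := by rw [h]; exact isUnit_one

/-- Case 2 -/
theorem CL_case2 (hFF : FF_stmt) (hJE : JE_stmt) (hJW : JW_stmt) (hZG : ZG_stmt)
    (hFS : FS P 𝔲 k W) (i : ℕ) (g : SLZ n) (hg : g ∈ P)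
    (htriv : ∀ w ∈ W (i + 1), qg g *ᵥ w - w ∈ W i) (u : VQ n)
    (h : SolvG (ff P 𝔲) (qg g) (W (i + 1)) u) : SolvG (ff P 𝔲) (qg g) (W i) u := by
  have hF := CL_mkF hFF hFS
  have hm := hFS.mono
  have h0 := hFS.bot
  have hk := hFS.top
  obtain ⟨X, hX, hXu⟩ := h
  obtain ⟨y, hy⟩ : ∃ y : MQ n, y = IsNilpotent.exp X * qg g := ⟨_, rfl⟩
  have hgz : qg g ∈ ZQ (mz P) := subset_ZQ _ ⟨g, hg, rfl⟩
  have hyz : y ∈ ZQ (mz P) := by rw [hy]; exact (hZG n P).1 _ (hF.zar X hX) _ hgz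
  obtain ⟨s, N, hJ, -, -, -⟩ := hJE n y (CL_unit ((hZG n P).2 y hyz).1)
  obtain ⟨s₀, N₀, hJ₀, -, -, -⟩ := hJE n (qg g) (CL_unit ((hZG n P).2 _ hgz).1)
  have hN : N ∈ ff P 𝔲 := ((hFF n P 𝔲 k W hFS).2.2.2 X hX g hg s N s₀ N₀ (by rw [← hy]; exact hJ)
    hJ₀).1
  have hyv : ∀ w : VQ n, y *ᵥ w = IsNilpotent.exp X *ᵥ (qg g *ᵥ w) := by
    intro w
    rw [hy, mulVec_mulVec]
  have hyW : ∀ w ∈ W (i + 1), y *ᵥ w - w ∈ W i := by
    intro w hw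
    have e : y *ᵥ w - w = (IsNilpotent.exp X *ᵥ w - w) +
        IsNilpotent.exp X *ᵥ (qg g *ᵥ w - w) := by
      rw [hyv, Matrix.mulVec_sub]
      abel
    rw [e]
    exact (W i).add_mem (CL_e1 hm h0 hk (hF.down X hX) i w hw)
      (CL_e0 hm h0 hk (hF.down X hX) i _ (htriv w hw))
  have hyi : ∀ w ∈ W i, y *ᵥ w ∈ W i := by
    intro w hw
    rw [hyv]
    exact CL_e0 hm h0 hk (hF.down X hX) i _ (hFS.stab g hg i w hw)
  have huy : y *ᵥ u - u ∈ W (i + 1) := by rw [hyv]; exact hXu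
  have hA1 : ∀ w ∈ Submodule.span ℚ {u} ⊔ W (i + 1), y *ᵥ w - w ∈ W (i + 1) := by
    intro w hw
    obtain ⟨a, ha, b, hb, rfl⟩ := Submodule.mem_sup.1 hw
    obtain ⟨c, rfl⟩ := Submodule.mem_span_singleton.1 ha
    have e : y *ᵥ (c • u + b) - (c • u + b) = c • (y *ᵥ u - u) + (y *ᵥ b - b) := by
      rw [Matrix.mulVec_add, Matrix.mulVec_smul, smul_sub]
      abel
    rw [e]
    exact (W (i + 1)).add_mem ((W (i + 1)).smul_mem c huy) (hm (Nat.le_succ i) (hyW b hb))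
  have hs := hJW n y s N (CL_unit ((hZG n P).2 y hyz).1) hJ (Submodule.span ℚ {u} ⊔ W (i + 1))
    (W i) ((hm (Nat.le_succ i)).trans le_sup_right)
    (fun w hw => by
      have h1 := Submodule.add_mem _
        ((le_sup_right : W (i + 1) ≤ Submodule.span ℚ {u} ⊔ W (i + 1)) (hA1 w hw)) hw
      rwa [sub_add_cancel] at h1)
    hyi (fun w hw => hyW _ (hA1 w hw)) u
    (Submodule.mem_sup_left (Submodule.mem_span_singleton_self u))
  -- s = exp (-N) * y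
  have hsy : s = IsNilpotent.exp (-N) * y := by
    obtain ⟨hn, hc, -, he⟩ := hJ
    rw [he, ← mul_assoc, ← (CL_comm hc.neg_right hn.neg).eq, mul_assoc,
      IsNilpotent.exp_neg_mul_exp_self hn, mul_one]
  obtain ⟨Z, hZ, hZe⟩ := hF.grp (-N) ((ff P 𝔲).neg_mem hN) X hX
  refine ⟨Z, hZ, ?_⟩
  rw [hsy, hy, ← mul_assoc, hZe, ← mulVec_mulVec] at hs
  exact hs

/-- Case 3 (a): the key computation -/
theorem CL_case3a (hLG : UG.LG_stmt) (hm : Monotone W) (h0 : W 0 = ⊥) (hk : W k = ⊤)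
    (hF : CL_F P 𝔲 W 𝔣) (g : MQ n) (hgs : ∀ i, ∀ w ∈ W i, g *ᵥ w ∈ W i) (i : ℕ) (u w : VQ n)
    (hw : w ∈ W (i + 1)) (h1 : SolvG 𝔣 g (W i) u) (h2 : SolvG 𝔣 g (W i) (u + w)) :
    ∃ Z ∈ 𝔣, Z *ᵥ u - (w - g *ᵥ w) ∈ W i := by
  obtain ⟨X, hX, hXu⟩ := h1
  obtain ⟨Y, hY, hYu⟩ := h2
  obtain ⟨Z, hZ, hZe⟩ := hF.grp Y hY (-X) (𝔣.neg_mem hX)
  have hXn := CL_nil h0 hk (hF.down X hX)
  -- exp Y = exp Z * exp X
  have hYe : IsNilpotent.exp Y = IsNilpotent.exp Z * IsNilpotent.exp X := by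
    rw [← hZe, mul_assoc, IsNilpotent.exp_neg_mul_exp_self hXn, mul_one]
  obtain ⟨a, ha⟩ : ∃ a : VQ n, a = IsNilpotent.exp X *ᵥ (g *ᵥ u) - u := ⟨_, rfl⟩
  obtain ⟨b, hb⟩ : ∃ b : VQ n, b = IsNilpotent.exp X *ᵥ (g *ᵥ w) - g *ᵥ w := ⟨_, rfl⟩
  rw [← ha] at hXu
  have hbW : b ∈ W i := by
    rw [hb]
    exact CL_e1 hm h0 hk (hF.down X hX) i _ (hgs (i + 1) w hw)
  have e1 : IsNilpotent.exp Y *ᵥ (g *ᵥ (u + w)) - (u + w) =
      (IsNilpotent.exp Z *ᵥ u - u - (w - g *ᵥ w)) + IsNilpotent.exp Z *ᵥ (a + b) +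
        (IsNilpotent.exp Z *ᵥ (g *ᵥ w) - g *ᵥ w) := by
    rw [hYe, ← mulVec_mulVec]
    have e2 : IsNilpotent.exp X *ᵥ (g *ᵥ (u + w)) = u + (a + b) + g *ᵥ w := by
      rw [Matrix.mulVec_add, Matrix.mulVec_add, ha, hb]
      abel
    rw [e2, Matrix.mulVec_add, Matrix.mulVec_add]
    abel
  have hab : IsNilpotent.exp Z *ᵥ (a + b) ∈ W i :=
    CL_e0 hm h0 hk (hF.down Z hZ) i _ ((W i).add_mem hXu hbW)
  have hc : IsNilpotent.exp Z *ᵥ (g *ᵥ w) - g *ᵥ w ∈ W i :=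
    CL_e1 hm h0 hk (hF.down Z hZ) i _ (hgs (i + 1) w hw)
  have hd : IsNilpotent.exp Z *ᵥ u - u - (w - g *ᵥ w) ∈ W i := by
    have h3 := (W i).sub_mem ((W i).sub_mem hYu hab) hc
    have e3 : IsNilpotent.exp Y *ᵥ (g *ᵥ (u + w)) - (u + w) - IsNilpotent.exp Z *ᵥ (a + b) -
        (IsNilpotent.exp Z *ᵥ (g *ᵥ w) - g *ᵥ w) =
        IsNilpotent.exp Z *ᵥ u - u - (w - g *ᵥ w) := by
      rw [e1]
      abel
    rwa [e3] at h3
  have he : IsNilpotent.exp Z *ᵥ u - u ∈ W (i + 1) := by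
    have h3 := (W (i + 1)).add_mem (hm (Nat.le_succ i) hd)
      ((W (i + 1)).sub_mem hw (hgs (i + 1) w hw))
    rwa [sub_add_cancel] at h3
  have hf := CL_e3 hLG hm h0 hk (hF.down Z hZ) i u he
  refine ⟨Z, hZ, ?_⟩
  have h3 := (W i).add_mem hf hd
  have e4 : Z *ᵥ u - (IsNilpotent.exp Z *ᵥ u - u) +
      (IsNilpotent.exp Z *ᵥ u - u - (w - g *ᵥ w)) = Z *ᵥ u - (w - g *ᵥ w) := by abel
  rwa [e4] at h3

/-- Case 3 (b) -/
theorem CL_case3b (hZG : ZG_stmt) (hZC : ZC_stmt) (hZE : ZE_stmt) (hLG : UG.LG_stmt)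
    (hFS : FS P 𝔲 k W) (hF : CL_F P 𝔲 W 𝔣) (i : ℕ) (u : VQ n) (g₀ y : SLZ n) (hg₀ : g₀ ∈ P)
    (hy : y ∈ P) (h1 : SolvG 𝔣 (qg g₀) (W (i + 1)) u) (h2 : ¬ SolvG 𝔣 (qg g₀) (W i) u)
    (hyu : qg y *ᵥ u = u) : y ∈ kerL P W i := by
  have hm := hFS.mono
  have h0 := hFS.bot
  have hk := hFS.top
  rcases hFS.schur y hy i with hs | hs
  · exact ⟨hy, hs⟩
  exfalso
  apply h2
  obtain ⟨X, hX, hXu⟩ := h1
  obtain ⟨y₀, hy₀⟩ : ∃ y₀ : MQ n, y₀ = IsNilpotent.exp X * qg g₀ := ⟨_, rfl⟩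
  obtain ⟨w₀, hw₀⟩ : ∃ w₀ : VQ n, w₀ = IsNilpotent.exp X *ᵥ (qg g₀ *ᵥ u) - u := ⟨_, rfl⟩
  have hyz : qg y ∈ ZQ (mz P) := subset_ZQ _ ⟨y, hy, rfl⟩
  have hy₀z : y₀ ∈ ZQ (mz P) := by
    rw [hy₀]
    exact (hZG n P).1 _ (hF.zar X hX) _ (subset_ZQ _ ⟨g₀, hg₀, rfl⟩)
  have hy₀u : y₀ *ᵥ u = u + w₀ := by
    rw [hy₀, ← mulVec_mulVec, hw₀]
    abel
  have hw₀W : w₀ ∈ W (i + 1) := by rw [hw₀]; exact hXu
  -- the commutator
  have hcom : qg y * y₀ * (qg y)⁻¹ * y₀⁻¹ ∈ Ex 𝔲 :=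
    hZC n P (Ex 𝔲) (hZE n 𝔲 k W h0 hk hFS.down)
      (fun g hg h hh => by
        obtain ⟨X, hX, hXe⟩ := hFS.com g hg h hh
        exact ⟨X, hX, hXe⟩) _ hyz _ hy₀z
  obtain ⟨X₁, hX₁, hX₁e⟩ := hcom
  have hdy := ((hZG n P).2 _ hyz).1
  have hdy₀ := ((hZG n P).2 _ hy₀z).1
  have hcm : IsNilpotent.exp X₁ * (y₀ * qg y) = qg y * y₀ := by
    rw [← hX₁e]
    have e1 : qg y * y₀ * (qg y)⁻¹ * y₀⁻¹ * (y₀ * qg y) =
        qg y * y₀ * ((qg y)⁻¹ * (y₀⁻¹ * y₀) * qg y) := by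
      simp only [mul_assoc]
    rw [e1, Matrix.nonsing_inv_mul _ (CL_unit hdy₀), mul_one,
      Matrix.nonsing_inv_mul _ (CL_unit hdy), mul_one]
  have hX₁f := hF.le hX₁
  have e2 : u + qg y *ᵥ w₀ = IsNilpotent.exp X₁ *ᵥ (u + w₀) := by
    have h3 : (IsNilpotent.exp X₁ * (y₀ * qg y)) *ᵥ u = (qg y * y₀) *ᵥ u := by rw [hcm]
    rw [← mulVec_mulVec, ← mulVec_mulVec, ← mulVec_mulVec, hyu, hy₀u,
      Matrix.mulVec_add (qg y), hyu] at h3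
    exact h3.symm
  -- the increment
  have hdiff : IsNilpotent.exp X₁ *ᵥ u - u - (qg y *ᵥ w₀ - w₀) ∈ W i := by
    have h3 := CL_e1 hm h0 hk (hF.down X₁ hX₁f) i w₀ hw₀W
    have e3 : IsNilpotent.exp X₁ *ᵥ u - u - (qg y *ᵥ w₀ - w₀) =
        -(IsNilpotent.exp X₁ *ᵥ w₀ - w₀) := by
      rw [Matrix.mulVec_add] at e2
      have e4 : IsNilpotent.exp X₁ *ᵥ u =
          u + qg y *ᵥ w₀ - IsNilpotent.exp X₁ *ᵥ w₀ := by rw [e2]; abel
      rw [e4]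
      abel
    rw [e3]
    exact (W i).neg_mem h3
  have hyw : qg y *ᵥ w₀ - w₀ ∈ W (i + 1) :=
    (W (i + 1)).sub_mem (hFS.stab y hy (i + 1) w₀ hw₀W) hw₀W
  have hX₁u : IsNilpotent.exp X₁ *ᵥ u - u ∈ W (i + 1) := by
    have h3 := (W (i + 1)).add_mem (hm (Nat.le_succ i) hdiff) hyw
    rwa [sub_add_cancel] at h3
  have hT1 : qg y *ᵥ w₀ - w₀ ∈ CL_T 𝔣 (W i) (W (i + 1)) u := by
    refine ⟨hyw, X₁, hX₁f, ?_⟩
    have h3 := (W i).add_mem (CL_e3 hLG hm h0 hk (hF.down X₁ hX₁f) i u hX₁u) hdiff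
    have e5 : X₁ *ᵥ u - (IsNilpotent.exp X₁ *ᵥ u - u) +
        (IsNilpotent.exp X₁ *ᵥ u - u - (qg y *ᵥ w₀ - w₀)) = X₁ *ᵥ u - (qg y *ᵥ w₀ - w₀) := by
      abel
    rwa [e5] at h3
  have hyinv : (qg y)⁻¹ *ᵥ u = u := by
    conv_lhs => rw [← hyu]
    rw [mulVec_mulVec, Matrix.nonsing_inv_mul _ (CL_unit hdy), Matrix.one_mulVec]
  have hTs : ∀ w ∈ CL_T 𝔣 (W i) (W (i + 1)) u, qg y *ᵥ w ∈ CL_T 𝔣 (W i) (W (i + 1)) u := by
    rintro w ⟨hw, Y, hY, hYw⟩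
    refine ⟨hFS.stab y hy (i + 1) w hw, qg y * Y * (qg y)⁻¹, hF.conj Y hY _ hyz, ?_⟩
    have e6 : (qg y * Y * (qg y)⁻¹) *ᵥ u - qg y *ᵥ w = qg y *ᵥ (Y *ᵥ u - w) := by
      rw [← mulVec_mulVec, ← mulVec_mulVec, hyinv, Matrix.mulVec_sub]
    rw [e6]
    exact hFS.stab y hy i _ hYw
  obtain ⟨w', hw', hw'2⟩ := CL_surj (CL_T 𝔣 (W i) (W (i + 1)) u) (W i)
    (Matrix.toLin' (qg y - 1))
    (fun w hw => by
      rw [Matrix.toLin'_apply, Matrix.sub_mulVec, Matrix.one_mulVec]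
      exact Submodule.sub_mem _ (hTs w hw) hw)
    (fun w hw => by
      rw [Matrix.toLin'_apply, Matrix.sub_mulVec, Matrix.one_mulVec]
      exact (W i).sub_mem (hFS.stab y hy i w hw) hw)
    (fun w hw hww => by
      rw [Matrix.toLin'_apply, Matrix.sub_mulVec, Matrix.one_mulVec] at hww
      exact hs w hw.1 hww) _ hT1
  rw [Matrix.toLin'_apply, Matrix.sub_mulVec, Matrix.one_mulVec] at hw'2
  -- w₀ - w' is in W i
  have hfin : w₀ - w' ∈ W i := by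
    apply hs _ ((W (i + 1)).sub_mem hw₀W hw'.1)
    have e7 : qg y *ᵥ (w₀ - w') - (w₀ - w') =
        qg y *ᵥ w₀ - w₀ - (qg y *ᵥ w' - w') := by
      rw [Matrix.mulVec_sub]
      abel
    rw [e7]
    exact hw'2
  obtain ⟨-, Y, hY, hYw⟩ := hw'
  refine CL_step hm h0 hk hF (qg g₀) i u X (-Y) hX (𝔣.neg_mem hY) hXu ?_
  rw [← hw₀, Matrix.neg_mulVec]
  have e8 : -(Y *ᵥ u) + w₀ = -(Y *ᵥ u - w') + (w₀ - w') := by abel
  rw [e8]
  exact (W i).add_mem ((W i).neg_mem hYw) hfin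

end

theorem CL (hFF : FF_stmt) (hGE : GE_stmt) (hGD : GD_stmt) (hJE : JE_stmt) (hJW : JW_stmt)
    (hZG : ZG_stmt) (hZC : ZC_stmt) (hZE : ZE_stmt) (hLG : UG.LG_stmt) (_hEXJ : UG.EXJ_stmt) :
    CL_stmt := by
  intro n P 𝔲 k W hFS hG hker
  have hF := CL_mkF hFF hFS
  have hm := hFS.mono
  have h0 := hFS.bot
  have hk := hFS.top
  -- the induction step
  have hstep : ∀ i : ℕ, i ≤ k → (∀ g ∈ P, Gen (SolvG (ff P 𝔲) (qg g) (W (i + 1)))) →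
      ∀ g ∈ P, Gen (SolvG (ff P 𝔲) (qg g) (W i)) := by
    intro i hik hS
    by_cases htriv : ∀ g ∈ P, ∀ w ∈ W (i + 1), qg g *ᵥ w - w ∈ W i
    · intro g hg
      exact (hS g hg).mono fun u hu =>
        CL_case2 hFF hJE hJW hZG hFS i g hg (htriv g hg) u hu
    · push Not at htriv
      obtain ⟨g₀, hg₀, w₁, hw₁, hw₁2⟩ := htriv
      rcases hGD n (ff P 𝔲) (W i) (W (i + 1)) with hD | hD
      · intro g hg
        refine ((hS g hg).and hD).mono fun u hu => ?_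
        obtain ⟨⟨X, hX, hXu⟩, hu2⟩ := hu
        obtain ⟨Y, hY, hYu⟩ := hu2 _ ((W (i + 1)).neg_mem hXu)
        refine CL_step hm h0 hk hF (qg g) i u X Y hX hY hXu ?_
        rwa [sub_neg_eq_add] at hYu
      · exfalso
        have hs₀ : ∀ w ∈ W (i + 1), qg g₀ *ᵥ w - w ∈ W i → w ∈ W i := by
          rcases hFS.schur g₀ hg₀ i with h | h
          · exact absurd (h w₁ hw₁) hw₁2
          · exact h
        -- (a)
        have ha : Gen (fun u => ¬ SolvG (ff P 𝔲) (qg g₀) (W i) u) := by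
          by_contra hc
          obtain ⟨g, -, hgen⟩ := hGE n k (ff P 𝔲) W (qg g₀) hm h0 hk hF.down hF.grp i hik hc
          have hgen2 : Gen (SolvG (ff P 𝔲) (qg g₀) (W i)) := by
            refine hgen.mono fun u hu => ?_
            obtain ⟨⟨X, hX, hXe⟩, hu2⟩ := hu
            exact ⟨X, hX, by rw [← hXe]; exact hu2⟩
          obtain ⟨f, hf, hfu⟩ := hgen2.and hD
          obtain ⟨u, hu⟩ := exists_eval_ne hf
          apply (hfu u hu).2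
          -- differences
          have hdif : ∀ w ∈ W (i + 1), ∃ Z ∈ ff P 𝔲, Z *ᵥ u - (w - qg g₀ *ᵥ w) ∈ W i := by
            intro w hw
            obtain ⟨t, ht, htu⟩ := CL_line f u w hu
            obtain ⟨Z, hZ, hZu⟩ := CL_case3a hLG hm h0 hk hF (qg g₀) (hFS.stab g₀ hg₀) i u
              (t • w) ((W (i + 1)).smul_mem t hw) (hfu u hu).1 (hfu _ htu).1
            refine ⟨t⁻¹ • Z, (ff P 𝔲).smul_mem _ hZ, ?_⟩
            have h1 := (W i).smul_mem t⁻¹ hZu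
            have e : t⁻¹ • (Z *ᵥ u - (t • w - qg g₀ *ᵥ (t • w))) =
                (t⁻¹ • Z) *ᵥ u - (w - qg g₀ *ᵥ w) := by
              rw [Matrix.mulVec_smul, smul_sub, smul_sub, smul_smul, smul_smul,
                inv_mul_cancel₀ ht, one_smul, one_smul, Matrix.smul_mulVec]
            rwa [e] at h1
          intro w hw
          obtain ⟨w', hw', hw'2⟩ := CL_surj (W (i + 1)) (W i) (Matrix.toLin' (1 - qg g₀))
            (fun w hw => by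
              rw [Matrix.toLin'_apply, Matrix.sub_mulVec, Matrix.one_mulVec]
              exact (W (i + 1)).sub_mem hw (hFS.stab g₀ hg₀ (i + 1) w hw))
            (fun w hw => by
              rw [Matrix.toLin'_apply, Matrix.sub_mulVec, Matrix.one_mulVec]
              exact (W i).sub_mem hw (hFS.stab g₀ hg₀ i w hw))
            (fun w hw hww => by
              rw [Matrix.toLin'_apply, Matrix.sub_mulVec, Matrix.one_mulVec] at hww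
              apply hs₀ w hw
              have h1 := (W i).neg_mem hww
              rwa [neg_sub] at h1) w hw
          rw [Matrix.toLin'_apply, Matrix.sub_mulVec, Matrix.one_mulVec] at hw'2
          obtain ⟨Z, hZ, hZu⟩ := hdif w' hw'
          refine ⟨Z, hZ, ?_⟩
          have h1 := (W i).sub_mem hZu hw'2
          have e : Z *ᵥ u - (w' - qg g₀ *ᵥ w') - (w - (w' - qg g₀ *ᵥ w')) = Z *ᵥ u - w := by
            abel
          rwa [e] at h1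
        -- (b), (c)
        apply hker i ⟨g₀, hg₀, w₁, hw₁, hw₁2⟩
        have hG' : Gen (fun u : VQ n => ∃ g ∈ (P : Set (SLZ n)), g ≠ 1 ∧ qg g *ᵥ u = u) := hG
        refine ((hG'.and ha).and (hS g₀ hg₀)).mono fun u hu => ?_
        obtain ⟨⟨⟨y, hy, hy1, hyu⟩, hu2⟩, hu3⟩ := hu
        exact ⟨y, CL_case3b hZG hZC hZE hLG hFS hF i u g₀ y hg₀ hy hu3 hu2 hyu, hy1, hyu⟩
  have hall : ∀ j : ℕ, j ≤ k → ∀ g ∈ P, Gen (SolvG (ff P 𝔲) (qg g) (W (k - j))) := by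
    intro j
    induction j with
    | zero =>
      intro _ g _
      refine Gen.of_forall fun u => ⟨0, (ff P 𝔲).zero_mem, ?_⟩
      rw [Nat.sub_zero, hk]
      trivial
    | succ j ih =>
      intro hj
      apply hstep (k - (j + 1)) (by omega)
      have e : k - (j + 1) + 1 = k - j := by omega
      rw [e]
      exact ih (by omega)
  intro g hg
  have h1 := hall k le_rfl g hg
  rw [Nat.sub_self, h0] at h1
  exact h1

end Pool.Agent.BS
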