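import Pool.Agent.helper73.BS.Spec2

/-!
# Project bs, row FL: the Lie algebra of a unipotent group with a flag
-/

set_option autoImplicit false

namespace Pool.Agent.BS

open Matrix Module Pool.Agent.UG Pool.Agent.H48SL Pool.Agent.SHL

section

variable {n : ℕ} {W : ℕ → Submodule ℚ (VQ n)}

theorem FL_antitone (hW : Monotone W) {i j : ℕ} (hij : i ≤ j) : fil W j ≤ fil W i := by
  induction hij with
  | refl => exact le_rfl
  | step _ ih => exact (fil_anti hW _).trans ih

theorem FL_one : (1 : MQ n) ∈ fil W 0 := by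
  intro a w hw
  rw [Matrix.one_mulVec]
  exact hw

theorem FL_pow {X : MQ n} (hX : X ∈ fil W 1) (i : ℕ) : X ^ i ∈ fil W i := by
  induction i with
  | zero => rw [pow_zero]; exact FL_one
  | succ i ih => rw [pow_succ]; exact fil_mul ih hX

theorem FL_aeval (hW : Monotone W) {X : MQ n} (hX : X ∈ fil W 1) (Q : Polynomial ℚ) :
    Polynomial.aeval X Q ∈ fil W 0 := by
  induction Q using Polynomial.induction_on' with
  | add p q hp hq => rw [map_add]; exact (fil W 0).add_mem hp hq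
  | monomial k a =>
    rw [Polynomial.aeval_monomial, ← Algebra.smul_def]
    exact (fil W 0).smul_mem a (FL_antitone hW (Nat.zero_le k) (FL_pow hX k))

theorem FL_aeval1 (hW : Monotone W) {X : MQ n} (hX : X ∈ fil W 1) {P : Polynomial ℚ}
    (hP : Polynomial.X ^ 2 ∣ P - Polynomial.X) : Polynomial.aeval X P ∈ fil W 1 := by
  obtain ⟨R, hR⟩ := hP
  have hPR : P = Polynomial.X * (1 + Polynomial.X * R) := by
    have : P = Polynomial.X + Polynomial.X ^ 2 * R := by rw [← hR]; ring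
    rw [this]; ring
  rw [hPR, map_mul, Polynomial.aeval_X]
  exact fil_mul hX (FL_aeval hW hX _)

theorem FL_exp1 (X : MQ n) (hX : IsNilpotent X) :
    ∃ Q : Polynomial ℚ, IsNilpotent.exp X - 1 = X * Polynomial.aeval X Q := by
  obtain ⟨m, hm⟩ := hX
  have hm2 : X ^ (m + 1) = 0 := by rw [pow_succ, hm, zero_mul]
  refine ⟨∑ i ∈ Finset.range m, Polynomial.C (((i + 1).factorial : ℚ)⁻¹) * Polynomial.X ^ i, ?_⟩
  rw [IsNilpotent.exp_eq_sum hm2, Finset.sum_range_succ', map_sum, Finset.mul_sum]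
  have h1 : ∀ i ∈ Finset.range m, (((i + 1).factorial : ℚ)⁻¹) • X ^ (i + 1) =
      X * Polynomial.aeval X (Polynomial.C (((i + 1).factorial : ℚ)⁻¹) * Polynomial.X ^ i) := by
    intro i _
    rw [map_mul, Polynomial.aeval_C, map_pow, Polynomial.aeval_X, ← Algebra.smul_def,
      mul_smul_comm, ← pow_succ']
  rw [Finset.sum_congr rfl h1]
  simp only [Nat.factorial_zero, Nat.cast_one, inv_one, one_smul, pow_zero]
  abel

variable {k : ℕ}

theorem FL_exp (hW : Monotone W) (h0 : W 0 = ⊥) (hk : W k = ⊤) {X : MQ n} (hX : X ∈ fil W 1) :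
    IsNilpotent.exp X - 1 ∈ fil W 1 := by
  obtain ⟨Q, hQ⟩ := FL_exp1 X (fil_one_nil h0 hk hX)
  rw [hQ]
  exact fil_mul hX (FL_aeval hW hX Q)

theorem FL_prod (hW : Monotone W) (h0 : W 0 = ⊥) (hk : W k = ⊤) {X Y : MQ n}
    (hX : X ∈ fil W 1) (hY : Y ∈ fil W 1) :
    IsNilpotent.exp X * IsNilpotent.exp Y - 1 ∈ fil W 1 := by
  have e : IsNilpotent.exp X * IsNilpotent.exp Y - 1 =
      (IsNilpotent.exp X - 1) * (IsNilpotent.exp Y - 1) + (IsNilpotent.exp X - 1) +
        (IsNilpotent.exp Y - 1) := by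
    noncomm_ring
  rw [e]
  exact (fil W 1).add_mem ((fil W 1).add_mem (FL_antitone hW (by norm_num)
    (fil_mul (FL_exp hW h0 hk hX) (FL_exp hW h0 hk hY))) (FL_exp hW h0 hk hX))
    (FL_exp hW h0 hk hY)

theorem FL_list {l : List (MQ n)} (h : ∀ X ∈ l, X ∈ fil W 1) : l.prod ∈ fil W l.length := by
  induction l with
  | nil => rw [List.prod_nil]; exact FL_one
  | cons X l ih =>
    rw [List.prod_cons, List.length_cons, Nat.add_comm]
    exact fil_mul (h X List.mem_cons_self) (ih fun Y hY => h Y (List.mem_cons_of_mem X hY))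

/-- polynomials of polynomial curves -/
theorem FL_PCaeval {f : ℚ → MQ n} (hf : PC f) (Q : Polynomial ℚ) :
    PC (fun t => Polynomial.aeval (f t) Q) := by
  induction Q using Polynomial.induction_on' with
  | add p q hp hq =>
    simp only [map_add]
    exact hp.add hq
  | monomial k a =>
    have h1 : (fun t => Polynomial.aeval (f t) (Polynomial.monomial k a)) =
        fun t => (Polynomial.C a).eval t • f t ^ k := by
      funext t
      rw [Polynomial.aeval_monomial, ← Algebra.smul_def, Polynomial.eval_C]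
    rw [h1]
    exact (hf.pow k).smul (Polynomial.C a)

/-- a polynomial curve which is in a subspace at infinitely many times is in it everywhere -/
theorem FL_PCmem {f : ℚ → MQ n} (hf : PC f) (𝔤 : Submodule ℚ (MQ n)) (c : ℚ) (hc : c ≠ 0)
    (h : ∀ i : ℕ, f ((i : ℚ) * c) ∈ 𝔤) (t : ℚ) : f t ∈ 𝔤 := by
  by_contra hne
  obtain ⟨ℓ, hℓ1, hℓ2⟩ := Submodule.exists_le_ker_of_notMem hne
  choose p hp using hf
  set P : Polynomial ℚ := ∑ i, ∑ j, Polynomial.C (ℓ (Matrix.single i j 1)) * p i j with hP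
  have key : ∀ t, ℓ (f t) = P.eval t := by
    intro t
    rw [hP, Polynomial.eval_finsetSum]
    conv_lhs => rw [Matrix.matrix_eq_sum_single (f t)]
    rw [map_sum]
    apply Finset.sum_congr rfl
    intro i _
    rw [map_sum, Polynomial.eval_finsetSum]
    apply Finset.sum_congr rfl
    intro j _
    rw [Polynomial.eval_mul, Polynomial.eval_C, ← hp]
    have : Matrix.single i j (f t i j) = (f t i j) • Matrix.single i j (1 : ℚ) := by
      rw [Matrix.smul_single, smul_eq_mul, mul_one]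
    rw [this, map_smul, smul_eq_mul, mul_comm]
  have hP0 : P = 0 := by
    apply Polynomial.eq_zero_of_infinite_isRoot
    apply Set.Infinite.mono (s := Set.range (fun i : ℕ => (i : ℚ) * c))
    · rintro _ ⟨i, rfl⟩
      show P.eval _ = 0
      rw [← key]
      exact hℓ2 (h i)
    · apply Set.infinite_range_of_injective
      intro i j hij
      have h1 : (i : ℚ) = j := mul_right_cancel₀ hc hij
      exact_mod_cast h1
  apply hℓ1
  rw [key, hP0, Polynomial.eval_zero]

/-- conjugation -/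
theorem FL_conj (g : SLZ n) {X : MQ n} (hX : IsNilpotent X) :
    IsNilpotent (qg g * X * qg g⁻¹) ∧
      IsNilpotent.exp (qg g * X * qg g⁻¹) = qg g * IsNilpotent.exp X * qg g⁻¹ := by
  have hp : ∀ i : ℕ, (qg g * X * qg g⁻¹) ^ i = qg g * X ^ i * qg g⁻¹ := by
    intro i
    induction i with
    | zero => rw [pow_zero, pow_zero, mul_one, qg_mul_inv]
    | succ i ih =>
      rw [pow_succ, ih, pow_succ]
      have e : qg g * X ^ i * qg g⁻¹ * (qg g * X * qg g⁻¹) =
          qg g * X ^ i * (qg g⁻¹ * qg g) * X * qg g⁻¹ := by simp only [mul_assoc]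
      rw [e, qg_inv_mul, mul_one, mul_assoc (qg g)]
  obtain ⟨m, hm⟩ := hX
  have hm2 : (qg g * X * qg g⁻¹) ^ m = 0 := by rw [hp, hm, mul_zero, zero_mul]
  refine ⟨⟨m, hm2⟩, ?_⟩
  rw [IsNilpotent.exp_eq_sum hm2, IsNilpotent.exp_eq_sum hm, Finset.mul_sum, Finset.sum_mul]
  apply Finset.sum_congr rfl
  intro i _
  rw [hp, mul_smul_comm, smul_mul_assoc]

end

theorem FL (hUMAL : UG.MAL_stmt) (hLG : UG.LG_stmt) (hEXJ : UG.EXJ_stmt) (hEI : EI_stmt) :
    FL_stmt := by
  intro n k A W hW h0 hk hA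
  have hA1 : ∀ a ∈ A, qg a - 1 ∈ fil W 1 := by
    intro a ha
    rw [mem_fil_one h0]
    intro i w hw
    rw [Matrix.sub_mulVec, Matrix.one_mulVec]
    exact hA a ha i w hw
  have hU : UNil A := by
    refine ⟨k, fun l hl hlen => ?_⟩
    have h1 : (l.map (fun a => qg a - 1)).prod ∈ fil W (l.map (fun a => qg a - 1)).length := by
      apply FL_list
      intro X hX
      obtain ⟨a, ha, rfl⟩ := List.mem_map.1 hX
      exact hA1 a (hl a ha)
    rw [List.length_map] at h1
    have h2 := FL_antitone hW hlen h1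
    rw [fil_bot h0 hk] at h2
    exact (Submodule.mem_bot ℚ).1 h2
  obtain ⟨𝔲, hAN, hlat, huni⟩ := hUMAL n A hU
  obtain ⟨P, hP1, hP2, hP3⟩ := hLG n
  have hfil : ∀ X ∈ 𝔲, X ∈ fil W 1 := by
    intro X hX
    obtain ⟨j, hj, a, ha, hae⟩ := hlat X hX
    have h1 := hP3 ((j : ℚ) • X) (hAN.nil (𝔲.smul_mem _ hX))
    rw [← hae] at h1
    have h2 : (j : ℚ) • X ∈ fil W 1 := by
      rw [← h1]
      exact FL_aeval1 hW (hA1 a ha) hP1
    have h3 := (fil W 1).smul_mem ((j : ℚ)⁻¹) h2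
    rwa [smul_smul, inv_mul_cancel₀ (by positivity), one_smul] at h3
  refine ⟨𝔲, fun X hX => (mem_fil_one h0).1 (hfil X hX), ?_, hlat, huni, ?_⟩
  · intro X hX Y hY
    obtain ⟨j, hj, a, ha, hae⟩ := hlat X hX
    obtain ⟨l, hl, b, hb, hbe⟩ := hlat Y hY
    have hXn := hAN.nil hX
    have hYn := hAN.nil hY
    have hD : ∀ i i' : ℕ, Polynomial.aeval (IsNilpotent.exp (((i : ℚ) * j) • X) *
        IsNilpotent.exp (((i' : ℚ) * l) • Y) - 1) P ∈ 𝔲 := by
      intro i i'
      have e1 : IsNilpotent.exp (((i : ℚ) * j) • X) = qg (a ^ i) := by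
        rw [qg_pow, hae, (hEXJ n _ (hAN.nil (𝔲.smul_mem _ hX))).1, smul_smul]
      have e2 : IsNilpotent.exp (((i' : ℚ) * l) • Y) = qg (b ^ i') := by
        rw [qg_pow, hbe, (hEXJ n _ (hAN.nil (𝔲.smul_mem _ hY))).1, smul_smul]
      obtain ⟨Z, hZ, hZe⟩ := huni (a ^ i * b ^ i') (A.mul_mem (A.pow_mem ha i) (A.pow_mem hb i'))
      rw [e1, e2, ← qg_mul, hZe, hP3 Z (hAN.nil hZ)]
      exact hZ
    have hj0 : (j : ℚ) ≠ 0 := by positivity
    have hl0 : (l : ℚ) ≠ 0 := by positivity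
    have hX1 : PC (fun t : ℚ => IsNilpotent.exp (t • X)) := (hEXJ n X hXn).2.2.2.2.2.2.1
    have hY1 : PC (fun t : ℚ => IsNilpotent.exp (t • Y)) := (hEXJ n Y hYn).2.2.2.2.2.2.1
    have hD2 : ∀ i' : ℕ, Polynomial.aeval (IsNilpotent.exp ((1 : ℚ) • X) *
        IsNilpotent.exp (((i' : ℚ) * l) • Y) - 1) P ∈ 𝔲 := by
      intro i'
      have hpc : PC (fun t : ℚ => Polynomial.aeval (IsNilpotent.exp (t • X) *
          IsNilpotent.exp (((i' : ℚ) * l) • Y) - 1) P) := by
        have h1 := (hX1.mul (PC.const (IsNilpotent.exp (((i' : ℚ) * l) • Y)))).add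
          (PC.const (-(1 : MQ n)))
        have h2 := FL_PCaeval h1 P
        simpa only [← sub_eq_add_neg] using h2
      exact FL_PCmem hpc 𝔲 (j : ℚ) hj0 (fun i => hD i i') 1
    have hD3 : Polynomial.aeval (IsNilpotent.exp ((1 : ℚ) • X) *
        IsNilpotent.exp ((1 : ℚ) • Y) - 1) P ∈ 𝔲 := by
      have hpc : PC (fun t : ℚ => Polynomial.aeval (IsNilpotent.exp ((1 : ℚ) • X) *
          IsNilpotent.exp (t • Y) - 1) P) := by
        have h1 := ((PC.const (IsNilpotent.exp ((1 : ℚ) • X))).mul hY1).add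
          (PC.const (-(1 : MQ n)))
        have h2 := FL_PCaeval h1 P
        simpa only [← sub_eq_add_neg] using h2
      exact FL_PCmem hpc 𝔲 (l : ℚ) hl0 hD2 1
    rw [one_smul, one_smul] at hD3
    refine ⟨_, hD3, ?_⟩
    rw [hP2 _ (fil_one_nil h0 hk (FL_prod hW h0 hk (hfil X hX) (hfil Y hY)))]
    abel
  · intro g hg X hX
    obtain ⟨j, hj, a, ha, hae⟩ := hlat X hX
    obtain ⟨X', hX', hX'e⟩ := huni _ (hg a ha)
    have hjn := hAN.nil (𝔲.smul_mem (j : ℚ) hX)
    obtain ⟨h1, h2⟩ := FL_conj g hjn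
    have h3 : qg g * ((j : ℚ) • X) * qg g⁻¹ = X' := by
      apply hEI n _ _ h1 (hAN.nil hX')
      rw [h2, ← hae, ← qg_mul, ← qg_mul]
      exact hX'e
    have h4 : qg g * X * qg g⁻¹ = (j : ℚ)⁻¹ • X' := by
      rw [← h3, mul_smul_comm, smul_mul_assoc, smul_smul, inv_mul_cancel₀ (by positivity), one_smul]
    rw [h4]
    exact 𝔲.smul_mem _ hX'

end Pool.Agent.BS
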